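import Pool.Agent.H655Z.RecNeg

/-! Which recurrence properties pass to the inverse of an invertible operator on a Fréchet space:
reiterative, uniform, IP* and Δ* recurrence do; U-frequent and frequent recurrence do not. -/

set_option autoImplicit false

open Pool.Agent.H655Z.Rec

theorem Pool.Agent.Results.MP_3e9a14_an.AllSix.result (𝕜 : Type) [RCLike 𝕜] :
    PassesToInverse 𝕜 PosBanach ∧ ¬ PassesToInverse 𝕜 PosUpper ∧ ¬ PassesToInverse 𝕜 PosLower ∧
      PassesToInverse 𝕜 Syndetic ∧ PassesToInverse 𝕜 IPStar ∧ PassesToInverse 𝕜 DeltaStar :=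
  ⟨passes_banach, not_passes exU, not_passes exL, passes_syndetic, passes_ip, passes_delta⟩
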